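import Mathlib
import Pool.Agent.H14.EndNat

set_option autoImplicit false

namespace Pool.Agent.Results.MP_0c7c8f_al.NoFinest

open Pool.Agent.H14.EndNat in
theorem result (t : TopologicalSpace E) (ht : @PolishSpace E t) :
    ∃ t' : TopologicalSpace E, @PolishSpace E t' ∧ @ContinuousMul E t' _ ∧
      ∃ U : Set E, @IsOpen E t' U ∧ ¬ @IsOpen E t U :=
  main t inferInstance

end Pool.Agent.Results.MP_0c7c8f_al.NoFinest
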